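import Mathlib

open Filter Topology Set Complex
open scoped InnerProductSpace

namespace Pool.Agent.H.MP_dfd7ce_an

variable {E : Type*} [NormedAddCommGroup E] [InnerProductSpace ℂ E] [CompleteSpace E]

structure DC (X Y A : E →L[ℂ] E) : Prop where
  adj : ∀ f g, ⟪X f, g⟫_ℂ = ⟪f, A g⟫_ℂ
  ax : ∀ f, A (X f) = f
  yy : ∀ f g, ⟪Y f, Y g⟫_ℂ = ⟪f, g⟫_ℂ
  xy : ∀ f, X (Y f) = Y (X f)
  ay : ∀ f, A (Y f) = Y (A f)

noncomputable def ε : ℂ := 1 / 30
noncomputable def q (X : E →L[ℂ] E) : E →L[ℂ] E := 1 + X + X * X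
noncomputable def P (X Y : E →L[ℂ] E) : E →L[ℂ] E := 1 + ε • (Y * q X)
noncomputable def Pt (X Y : E →L[ℂ] E) : E →L[ℂ] E := X * X * Y + ε • q X

variable {X Y A : E →L[ℂ] E}

omit [CompleteSpace E] in
lemma q_ap (f : E) : q X f = f + X f + X (X f) := rfl
omit [CompleteSpace E] in
lemma P_ap (f : E) : P X Y f = f + ε • Y (q X f) := rfl
omit [CompleteSpace E] in
lemma Pt_ap (f : E) : Pt X Y f = X (X (Y f)) + ε • q X f := rfl

lemma conj_ε : starRingEnd ℂ ε = ε := by simp [ε, map_ofNat]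
lemma norm_ε : ‖ε‖ = 1 / 30 := by simp [ε]

namespace DC
variable (h : DC X Y A)
include h
section
omit [CompleteSpace E]

lemma adj' (f g : E) : ⟪f, X g⟫_ℂ = ⟪A f, g⟫_ℂ := by
  rw [← inner_conj_symm, h.adj, inner_conj_symm]
lemma xx (f g : E) : ⟪X f, X g⟫_ℂ = ⟪f, g⟫_ℂ := by rw [h.adj, h.ax]
lemma nx (f : E) : ‖X f‖ = ‖f‖ := by
  rw [norm_eq_sqrt_re_inner (𝕜 := ℂ), h.xx, ← norm_eq_sqrt_re_inner]
lemma ny (f : E) : ‖Y f‖ = ‖f‖ := by
  rw [norm_eq_sqrt_re_inner (𝕜 := ℂ), h.yy, ← norm_eq_sqrt_re_inner]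
lemma nq (f : E) : ‖q X f‖ ≤ 3 * ‖f‖ := by
  rw [q_ap]; refine norm_add₃_le.trans ?_; simp only [h.nx]; linarith

lemma key (u g : E) : ⟪Pt X Y u, g⟫_ℂ = ⟪X (X (Y u)), P X Y g⟫_ℂ := by
  rw [Pt_ap, P_ap, inner_add_left, inner_add_right, inner_smul_left, inner_smul_right, conj_ε,
    h.xy, h.xy, h.yy, q_ap, q_ap]
  simp only [inner_add_left, inner_add_right, h.xx]; ring

lemma PX (f : E) : P X Y (X f) = X (P X Y f) := by
  simp only [P_ap, q_ap, map_add, map_smul, h.xy]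
lemma PY (f : E) : P X Y (Y f) = Y (P X Y f) := by
  simp only [P_ap, q_ap, map_add, map_smul, h.xy]
lemma PtX (f : E) : Pt X Y (X f) = X (Pt X Y f) := by
  simp only [Pt_ap, q_ap, map_add, map_smul, h.xy]
lemma PPt (f : E) : P X Y (Pt X Y f) = Pt X Y (P X Y f) := by
  simp only [P_ap, Pt_ap, q_ap, map_add, map_smul, h.xy, smul_add]; module
lemma Pq (f : E) : P X Y (q X f) = q X (P X Y f) := by
  simp only [q_ap, map_add, h.PX]

lemma A3 {e : E} (he : A e = 0) : A (A (A (P X Y e))) = 0 := by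
  simp only [P_ap, q_ap, map_add, map_smul, h.ay, h.ax, he, map_zero, add_zero, smul_zero]
lemma A3t {e : E} (he : A e = 0) : A (A (A (Pt X Y e))) = 0 := by
  simp only [Pt_ap, q_ap, map_add, map_smul, h.ay, h.ax, he, map_zero, add_zero, smul_zero]
lemma Ares (f : E) : A (f - X (A f)) = 0 := by rw [map_sub, h.ax, sub_self]
end

lemma inv {T : E →L[ℂ] E} (hT : ∀ f, ‖T f‖ ≤ 3 * ‖f‖) :
    Function.Bijective fun f => f + ε • T f := by
  have : ‖-(ε • T)‖ < 1 := by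
    rw [norm_neg, norm_smul, norm_ε]
    have := ContinuousLinearMap.opNorm_le_bound T (by norm_num) hT
    linarith
  let Q := Units.oneSub _ this
  have e : ∀ f, (Q : E →L[ℂ] E) f = f + ε • T f := fun f => by simp [Q]
  refine ⟨fun f g hfg => ?_, fun g => ⟨(↑Q⁻¹ : E →L[ℂ] E) g, ?_⟩⟩
  · have h1 : ∀ f, ((↑Q⁻¹ : E →L[ℂ] E) * Q) f = f := fun f => by rw [Units.inv_mul]; rfl
    rw [← h1 f, ← h1 g]
    exact congrArg (↑Q⁻¹ : E →L[ℂ] E) ((e f).trans (hfg.trans (e g).symm))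
  · have h1 : ((Q : E →L[ℂ] E) * ↑Q⁻¹) g = g := by rw [Units.mul_inv]; rfl
    exact (e _).symm.trans h1

lemma Pbij : Function.Bijective (P X Y) :=
  h.inv (T := Y * q X) fun f => (h.ny _).trans_le (h.nq f)

end DC

/-- the model space -/
noncomputable def K (X Y : E →L[ℂ] E) : Submodule ℂ E := (LinearMap.range (Pt X Y).toLinearMap)ᗮ
noncomputable def F (X Y A : E →L[ℂ] E) : Submodule ℂ E := LinearMap.ker (A * A * P X Y).toLinearMap

omit [CompleteSpace E] in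
lemma mem_K {g : E} : g ∈ K X Y ↔ ∀ u, ⟪Pt X Y u, g⟫_ℂ = 0 := by
  simp [K, Submodule.mem_orthogonal]
omit [CompleteSpace E] in
lemma mem_F {g : E} : g ∈ F X Y A ↔ A (A (P X Y g)) = 0 := Iff.rfl
omit [CompleteSpace E] in
lemma F_closed : IsClosed (F X Y A : Set E) := (A * A * P X Y).isClosed_ker

namespace DC
variable (h : DC X Y A)
include h

omit [CompleteSpace E] in
lemma FK : F X Y A ≤ K X Y := fun g hg => mem_K.2 fun u => by
  rw [h.key, h.adj, h.adj, mem_F.1 hg, inner_zero_right]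

omit [CompleteSpace E] in
lemma FY {g : E} (hg : g ∈ F X Y A) : Y g ∈ F X Y A := by
  rw [mem_F, h.PY, h.ay, h.ay, mem_F.1 hg, map_zero]

omit [CompleteSpace E] in
lemma FA' {g : E} (hg : A (A (A (P X Y g))) = 0) : A g ∈ F X Y A := by
  have h1 := h.A3 (h.Ares g)
  rw [map_sub, h.PX, map_sub, h.ax, map_sub, map_sub, hg, zero_sub, neg_eq_zero] at h1
  exact h1

lemma S1X {g : E} (hg : g ∈ K X Y ⊓ (F X Y A)ᗮ) : X g ∈ K X Y ⊓ (F X Y A)ᗮ := by
  refine ⟨mem_K.2 fun u => ?_, (Submodule.mem_orthogonal _ _).2 fun f hf => ?_⟩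
  · obtain ⟨v, hv⟩ := h.Pbij.2 (P X Y u - X (A (P X Y u)))
    obtain ⟨w, hw⟩ := h.Pbij.2 (A (P X Y u))
    have e : u = v + X w := h.Pbij.1 (by rw [map_add, h.PX, hv, hw]; abel)
    have h1 : A (Pt X Y v) ∈ F X Y A := h.FA' (by rw [h.PPt, hv]; exact h.A3t (h.Ares _))
    rw [e, map_add, inner_add_left, h.PtX, h.xx, mem_K.1 hg.1, h.adj',
      (Submodule.mem_orthogonal _ _).1 hg.2 _ h1, add_zero]
  · rw [h.adj']
    exact (Submodule.mem_orthogonal _ _).1 hg.2 _ (h.FA' (by rw [mem_F.1 hf, map_zero]))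

omit h in
lemma sup_eq (h : DC X Y A) : (K X Y ⊓ (F X Y A)ᗮ) ⊔ F X Y A = K X Y := by
  have : CompleteSpace (F X Y A) := F_closed.completeSpace_coe
  rw [sup_comm, inf_comm]
  exact Submodule.sup_orthogonal_inf_of_hasOrthogonalProjection h.FK

lemma ext {x g : E} (hx : A x = 0) (hg : P X Y g = Y (X x) + ε • X x - Y (x + ε • Y x)) :
    g ∈ F X Y A ∧ ∀ v ∈ F X Y A, ⟪q X g, X v⟫_ℂ = 0 := by
  refine ⟨?_, fun v hv => ?_⟩
  · rw [mem_F, hg]
    simp only [map_add, map_sub, map_smul, h.ay, h.ax, hx, map_zero, smul_zero, add_zero, sub_zero]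
  · obtain ⟨u, hu⟩ := h.Pbij.2 x
    have e : q X g = X (Pt X Y u) - Y x := h.Pbij.1 (by
      rw [h.Pq, hg, map_sub (P X Y), h.PX, h.PPt, hu, h.PY]
      simp only [P_ap, Pt_ap, q_ap, map_add, map_sub, map_smul, h.xy, smul_add]; module)
    rw [e, inner_sub_left, h.xx, mem_K.1 (h.FK hv), h.adj', h.ay, hx, map_zero, inner_zero_left,
      sub_zero]

omit [CompleteSpace E] in
lemma Qsym (f g : E) : ⟪q X f, X g⟫_ℂ = starRingEnd ℂ ⟪q X g, X f⟫_ℂ := by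
  simp only [q_ap, inner_add_left, h.xx, map_add, inner_conj_symm]; ring

omit [CompleteSpace E] in
lemma Qre (f : E) : (⟪q X f, X f⟫_ℂ).re = ‖f‖ ^ 2 + 2 * (⟪f, X f⟫_ℂ).re := by
  have e1 : (⟪f, f⟫_ℂ).re = ‖f‖ ^ 2 := inner_self_eq_norm_sq (𝕜 := ℂ) f
  have e2 : (⟪X f, f⟫_ℂ).re = (⟪f, X f⟫_ℂ).re := by rw [← inner_conj_symm, conj_re]
  simp only [q_ap, inner_add_left, h.xx, add_re, e1, e2]; ring

omit [CompleteSpace E] in
lemma Qle (f g : E) : ‖⟪q X f, X g⟫_ℂ‖ ≤ 3 * ‖f‖ * ‖g‖ :=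
  (norm_inner_le_norm _ _).trans (by
    rw [h.nx]; exact mul_le_mul_of_nonneg_right (h.nq f) (norm_nonneg _))

lemma pos {g : E} (hg : g ∈ F X Y A) : -‖g‖ ^ 2 / 2 ≤ (⟪g, X g⟫_ℂ).re := by
  set w := P X Y g with hw
  obtain ⟨x, hx⟩ := (h.inv (T := Y) fun f => by rw [h.ny]; linarith [norm_nonneg f]).2
    (-(w - X (A w)))
  have hx : x + ε • Y x = -(w - X (A w)) := hx
  have hAx : A x = 0 := (h.inv (T := Y) fun f => by rw [h.ny]; linarith [norm_nonneg f]).1 (by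
    have := congrArg A hx
    rw [map_neg, h.Ares, map_add, map_smul, h.ay] at this
    simpa using this)
  obtain ⟨gx, hgx⟩ := h.Pbij.2 (Y (X x) + ε • X x - Y (x + ε • Y x))
  obtain ⟨m1, m2⟩ := h.ext hAx hgx
  set y := Y (A w) - (Y x + ε • x) with hy
  have hAy : A y = 0 := by
    have : A (A w) = 0 := mem_F.1 hg
    simp only [hy, map_sub, map_add, map_smul, h.ay, this, hAx, map_zero, smul_zero, add_zero, sub_zero]
  set v := Y g - gx with hv
  have mv : v ∈ F X Y A := sub_mem (h.FY hg) m1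
  have pv : P X Y v = X y := by
    rw [hv, map_sub, h.PY, hgx, hx, hy]
    simp only [map_sub, map_add, map_smul, map_neg, h.xy, ← hw]; abel
  have e1 : ⟪q X g, X g⟫_ℂ = ⟪q X v, X v⟫_ℂ := by
    have a1 : ⟪q X g, X g⟫_ℂ = ⟪q X (Y g), X (Y g)⟫_ℂ := by
      simp only [q_ap, h.xy, ← map_add, h.yy]
    have a2 : Y g = gx + v := by rw [hv]; abel
    rw [a1, a2, map_add (q X), inner_add_left, m2 _ (add_mem m1 mv), map_add, inner_add_right,
      h.Qsym v gx, m2 _ mv]; simp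
  set r := ε • Y (q X v) with hr
  have e2 : v = X y - r := by rw [← pv, P_ap]; abel
  have nr : ‖r‖ ≤ 1 / 10 * ‖v‖ := by rw [hr, norm_smul, norm_ε, h.ny]; linarith [h.nq v]
  have nv : ‖v‖ ≤ ‖y‖ + ‖r‖ := by
    conv_lhs => rw [e2]
    exact (norm_sub_le _ _).trans (by rw [h.nx])
  have e3 : (⟪q X (X y), X (X y)⟫_ℂ).re = ‖y‖ ^ 2 := by
    rw [h.Qre, h.xx, h.adj', hAy, h.nx]; simp
  have e4 : 0 ≤ (⟪q X v, X v⟫_ℂ).re := by
    clear_value r
    rw [e2, map_sub (q X) (X y), map_sub X (X y), inner_sub_left, inner_sub_right, inner_sub_right]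
    simp only [sub_re, e3]
    have b1 := (re_le_norm _).trans (h.Qle (X y) r)
    have b2 := (re_le_norm _).trans (h.Qle r (X y))
    have b3 := (abs_re_le_norm _).trans (h.Qle r r)
    rw [h.nx] at b1 b2
    have b4 := (abs_le.1 b3).1
    have b5 : ‖r‖ ≤ ‖y‖ / 9 := by linarith
    nlinarith [norm_nonneg r, norm_nonneg y, mul_le_mul_of_nonneg_left b5 (norm_nonneg y),
      mul_le_mul b5 b5 (norm_nonneg r) (by positivity)]
  rw [← e1, h.Qre] at e4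
  linarith

lemma not_open {x : E} (hx : A x = 0) (hx0 : x ≠ 0) :
    ¬ IsOpen {w : ℂ | ∃ f ∈ F X Y A, ‖f‖ = 1 ∧ w = ⟪f, X f⟫_ℂ} := by
  obtain ⟨g, hg⟩ := h.Pbij.2 (Y (X x) + ε • X x - Y (x + ε • Y x))
  obtain ⟨m1, m2⟩ := h.ext hx hg
  have g0 : g ≠ 0 := by
    rintro rfl
    have h1 := congrArg A hg
    simp only [map_zero, map_add, map_sub, map_smul, h.ay, h.ax, hx, smul_zero, add_zero,
      sub_zero] at h1
    have h2 := congrArg norm (eq_neg_of_add_eq_zero_left h1.symm)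
    rw [norm_neg, norm_smul, norm_ε, h.ny] at h2
    exact hx0 (norm_eq_zero.1 (by linarith))
  have n0 := norm_pos_iff.2 g0
  set f := ((‖g‖⁻¹ : ℝ) : ℂ) • g with hf
  have nf : ‖f‖ = 1 := by rw [hf, norm_smul, norm_real, norm_inv, norm_norm, inv_mul_cancel₀ n0.ne']
  have mf : f ∈ F X Y A := Submodule.smul_mem _ _ m1
  have e : (⟪f, X f⟫_ℂ).re = -1 / 2 := by
    have h1 : ⟪q X f, X f⟫_ℂ = 0 := by
      rw [hf, map_smul (q X), inner_smul_left, m2 _ mf, mul_zero]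
    have h2 := h.Qre f
    rw [h1, nf] at h2; simp at h2; linarith
  intro ho
  obtain ⟨δ, d0, hd⟩ := Metric.isOpen_iff.1 ho _ ⟨f, mf, nf, rfl⟩
  obtain ⟨f', m', n', e'⟩ := hd (show ⟪f, X f⟫_ℂ - (δ / 2 : ℝ) ∈ _ by
    rw [Metric.mem_ball, dist_eq_norm, sub_sub_cancel_left, norm_neg, norm_real,
      Real.norm_of_nonneg (by positivity)]; linarith)
  have h3 := h.pos m'
  rw [← e', n', sub_re, e, ofReal_re] at h3
  linarith

end DC

end Pool.Agent.H.MP_dfd7ce_an
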