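import Pool.Agent.H.MP_dfd7ce_an.A

open Filter Topology Set Complex
open scoped InnerProductSpace ENNReal

namespace Pool.Agent.H.MP_dfd7ce_an

noncomputable abbrev H := lp (fun _ : ℕ × ℕ => ℂ) 2

lemma mem2 {f : ℕ × ℕ → ℂ} : Memℓp f 2 ↔ Summable fun i => ‖f i‖ ^ (2 : ℝ≥0∞).toReal :=
  memℓp_gen_iff (by norm_num)

noncomputable def cp (e : ℕ × ℕ → ℕ × ℕ) (he : Function.Injective e) : H →L[ℂ] H :=
  LinearMap.mkContinuous
    { toFun := fun f => ⟨fun i => f (e i), mem2.2 ((mem2.1 (lp.memℓp f)).comp_injective he)⟩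
      map_add' := fun _ _ => rfl
      map_smul' := fun _ _ => rfl } 1 fun f => by
    rw [one_mul]
    refine lp.norm_le_of_tsum_le (by norm_num) (norm_nonneg _) ?_
    rw [lp.norm_rpow_eq_tsum (by norm_num)]
    exact tsum_comp_le_tsum_of_inj (mem2.1 (lp.memℓp f)) (fun _ => by positivity) he

lemma cp_ap (e : ℕ × ℕ → ℕ × ℕ) (he : Function.Injective e) (f : H) (i : ℕ × ℕ) :
    cp e he f i = f (e i) := rfl

lemma co (f : H) (i : ℕ × ℕ) : ⟪(lp.single 2 i (1:ℂ) : H), f⟫_ℂ = f i := by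
  rw [lp.inner_single_left]; simp

lemma ad_in (e : ℕ × ℕ → ℕ × ℕ) (he : Function.Injective e) (f : H) (i : ℕ × ℕ) :
    (ContinuousLinearMap.adjoint (cp e he) f) (e i) = f i := by
  rw [← co, ContinuousLinearMap.adjoint_inner_right, ← co]
  congr 1
  ext j
  rw [cp_ap]
  simp [lp.single_apply, Pi.single_apply, he.eq_iff]

lemma ad_out (e : ℕ × ℕ → ℕ × ℕ) (he : Function.Injective e) (f : H) (i : ℕ × ℕ)
    (hi : ∀ j, e j ≠ i) : (ContinuousLinearMap.adjoint (cp e he) f) i = 0 := by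
  rw [← co, ContinuousLinearMap.adjoint_inner_right]
  have : cp e he (lp.single 2 i (1:ℂ)) = 0 := by
    ext j
    rw [cp_ap]
    simp [lp.single_apply, hi j]
  rw [this, inner_zero_left]

lemma i1 : Function.Injective fun i : ℕ × ℕ => (i.1 + 1, i.2) := fun a b h => by
  simp only [Prod.mk.injEq, add_left_inj] at h; exact Prod.ext h.1 h.2
lemma i2 : Function.Injective fun i : ℕ × ℕ => (i.1, i.2 + 1) := fun a b h => by
  simp only [Prod.mk.injEq, add_left_inj] at h; exact Prod.ext h.1 h.2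

noncomputable def A : H →L[ℂ] H := cp _ i1
noncomputable def B : H →L[ℂ] H := cp _ i2
noncomputable def X : H →L[ℂ] H := ContinuousLinearMap.adjoint A
noncomputable def Y : H →L[ℂ] H := ContinuousLinearMap.adjoint B

lemma A_ap (f : H) (i j : ℕ) : A f (i, j) = f (i + 1, j) := rfl
lemma B_ap (f : H) (i j : ℕ) : B f (i, j) = f (i, j + 1) := rfl
lemma X_s (f : H) (i j : ℕ) : X f (i + 1, j) = f (i, j) := ad_in _ i1 f (i, j)
lemma X_z (f : H) (j : ℕ) : X f (0, j) = 0 := ad_out _ i1 f _ fun _ h => by simp at h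
lemma Y_s (f : H) (i j : ℕ) : Y f (i, j + 1) = f (i, j) := ad_in _ i2 f (i, j)
lemma Y_z (f : H) (i : ℕ) : Y f (i, 0) = 0 := ad_out _ i2 f _ fun _ h => by simp at h

lemma AX (f : H) : A (X f) = f := by ext ⟨i, j⟩; rw [A_ap, X_s]
lemma BY (f : H) : B (Y f) = f := by ext ⟨i, j⟩; rw [B_ap, Y_s]
lemma adjX (f g : H) : ⟪X f, g⟫_ℂ = ⟪f, A g⟫_ℂ := ContinuousLinearMap.adjoint_inner_left _ _ _
lemma adjY (f g : H) : ⟪Y f, g⟫_ℂ = ⟪f, B g⟫_ℂ := ContinuousLinearMap.adjoint_inner_left _ _ _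

lemma dc : DC X Y A where
  adj := adjX
  ax := AX
  yy f g := by rw [adjY, BY]
  xy f := by
    ext ⟨i, j⟩
    cases i <;> cases j <;> simp only [X_s, X_z, Y_s, Y_z]
  ay f := by
    ext ⟨i, j⟩
    cases j <;> simp only [A_ap, Y_s, Y_z]

noncomputable def ev (f : H) (z : ℂ × ℂ) : ℂ := ∑' i : ℕ × ℕ, f i * z.1 ^ i.1 * z.2 ^ i.2

lemma kmem {s t : ℂ} (hs : ‖s‖ < 1) (ht : ‖t‖ < 1) :
    Memℓp (fun i : ℕ × ℕ => starRingEnd ℂ (s ^ i.1 * t ^ i.2)) 2 := by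
  have g : ∀ {s : ℂ}, ‖s‖ < 1 → Summable fun n : ℕ => (‖s‖ ^ 2) ^ n := fun hs =>
    summable_geometric_of_lt_one (by positivity) (pow_lt_one₀ (norm_nonneg _) hs (by norm_num))
  refine mem2.2 (((g hs).mul_of_nonneg (g ht) (fun _ => by positivity)
    (fun _ => by positivity)).congr fun i => ?_)
  simp only [RCLike.norm_conj, norm_mul, norm_pow, ENNReal.toReal_ofNat, Real.rpow_ofNat]
  ring

open Classical in
noncomputable def k (s t : ℂ) : H :=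
  if h : ‖s‖ < 1 ∧ ‖t‖ < 1 then ⟨_, kmem h.1 h.2⟩ else 0

lemma k_ap {s t : ℂ} (hs : ‖s‖ < 1) (ht : ‖t‖ < 1) (i j : ℕ) :
    k s t (i, j) = starRingEnd ℂ (s ^ i * t ^ j) := by
  rw [k, dif_pos ⟨hs, ht⟩]

lemma ev_k {s t : ℂ} (hs : ‖s‖ < 1) (ht : ‖t‖ < 1) (f : H) : ev f (s, t) = ⟪k s t, f⟫_ℂ := by
  rw [lp.inner_eq_tsum]
  exact tsum_congr fun ⟨i, j⟩ => by rw [k_ap hs ht]; simp [mul_assoc]

lemma A_k {s t : ℂ} (hs : ‖s‖ < 1) (ht : ‖t‖ < 1) : A (k s t) = starRingEnd ℂ s • k s t := by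
  ext ⟨i, j⟩; simp [A_ap, k_ap hs ht]; ring
lemma B_k {s t : ℂ} (hs : ‖s‖ < 1) (ht : ‖t‖ < 1) : B (k s t) = starRingEnd ℂ t • k s t := by
  ext ⟨i, j⟩; simp [B_ap, k_ap hs ht]; ring

lemma k_X {s t : ℂ} (hs : ‖s‖ < 1) (ht : ‖t‖ < 1) (f : H) : ⟪k s t, X f⟫_ℂ = s * ⟪k s t, f⟫_ℂ := by
  rw [dc.adj', A_k hs ht, inner_smul_left, conj_conj]
lemma k_Y {s t : ℂ} (hs : ‖s‖ < 1) (ht : ‖t‖ < 1) (f : H) : ⟪k s t, Y f⟫_ℂ = t * ⟪k s t, f⟫_ℂ := by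
  rw [← inner_conj_symm, adjY, inner_conj_symm, B_k hs ht, inner_smul_left, conj_conj]

lemma back {S T : H →L[ℂ] H} (adj : ∀ f g, ⟪T f, g⟫_ℂ = ⟪f, S g⟫_ℂ) (nT : ∀ f, ‖T f‖ = ‖f‖)
    (κ : ℂ → H) (h1 : ∀ s, ‖s‖ < 1 → κ s = κ 0 + starRingEnd ℂ s • T (κ s)) {f : H}
    (hf : ∀ s, ‖s‖ < 1 → ⟪κ s, f⟫_ℂ = 0) : ∀ s, ‖s‖ < 1 → ⟪κ s, S f⟫_ℂ = 0 := by
  have h2 : ∀ s, ‖s‖ < 1 → ∀ g, ⟪κ s, g⟫_ℂ = ⟪κ 0, g⟫_ℂ + s * ⟪κ s, S g⟫_ℂ := fun s hs g => by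
    conv_lhs => rw [h1 s hs]
    rw [inner_add_left, inner_smul_left, conj_conj, adj]
  have h3 : ∀ s, ‖s‖ < 1 → s ≠ 0 → ⟪κ s, S f⟫_ℂ = 0 := fun s hs h0 => by
    have := h2 s hs f
    rw [hf s hs, hf 0 (by simp), zero_add] at this
    exact (mul_eq_zero.1 this.symm).resolve_left h0
  intro s hs
  rcases ne_or_eq s 0 with h0 | rfl
  · exact h3 s hs h0
  refine norm_le_zero_iff.1 (ge_of_tendsto (f := fun r : ℝ => r * (2 * ‖κ 0‖ * ‖S (S f)‖))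
    (x := 𝓝[>] 0) ?_ ?_)
  · have : Continuous fun r : ℝ => r * (2 * ‖κ 0‖ * ‖S (S f)‖) := by fun_prop
    simpa using (this.tendsto 0).mono_left nhdsWithin_le_nhds
  · filter_upwards [Ioo_mem_nhdsGT (show (0:ℝ) < 1 / 2 by norm_num)] with r hr
    have n : ‖(r : ℂ)‖ = r := by rw [norm_real, Real.norm_of_nonneg hr.1.le]
    have hr1 : ‖(r : ℂ)‖ < 1 := by rw [n]; linarith [hr.2]
    have h4 := h2 r hr1 (S f)
    rw [h3 r hr1 (by exact_mod_cast hr.1.ne')] at h4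
    have h5 : ‖κ r‖ ≤ ‖κ 0‖ + r * ‖κ r‖ := by
      conv_lhs => rw [h1 r hr1]
      refine (norm_add_le _ _).trans ?_
      rw [norm_smul, RCLike.norm_conj, n, nT]
    have h6 : ‖κ r‖ ≤ 2 * ‖κ 0‖ := by nlinarith [norm_nonneg (κ r), hr.2]
    rw [eq_neg_of_add_eq_zero_left h4.symm, norm_neg, norm_mul, n]
    exact mul_le_mul_of_nonneg_left ((norm_inner_le_norm _ _).trans
      (mul_le_mul_of_nonneg_right h6 (norm_nonneg _))) hr.1.le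

lemma inj {f : H} (hf : ∀ s t, ‖s‖ < 1 → ‖t‖ < 1 → ⟪k s t, f⟫_ℂ = 0) : f = 0 := by
  ext ⟨i, j⟩
  induction i generalizing f with
  | zero =>
    induction j generalizing f with
    | zero =>
      have : k 0 0 = lp.single 2 (0, 0) 1 := by
        ext ⟨a, b⟩
        rw [k_ap (by simp) (by simp)]
        cases a <;> cases b <;> simp [lp.single_apply]
      rw [← co, ← this]; exact hf 0 0 (by simp) (by simp)
    | succ j ih =>
      refine ih (f := B f) fun s t hs ht => back adjY dc.ny (fun t => k s t) (fun t ht => ?_)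
        (fun t ht => hf s t hs ht) t ht
      ext ⟨a, b⟩
      cases b <;> simp [Y_s, Y_z, k_ap hs ht, k_ap hs (show ‖(0:ℂ)‖ < 1 by simp)]; ring
  | succ i ih =>
    refine ih (f := A f) fun s t hs ht => back adjX dc.nx (fun s => k s t) (fun s hs => ?_)
      (fun s hs => hf s t hs ht) s hs
    ext ⟨a, b⟩
    cases a <;> simp [X_s, X_z, k_ap hs ht, k_ap (show ‖(0:ℂ)‖ < 1 by simp) ht]; ring

noncomputable def pn (z : ℂ × ℂ) : ℂ := z.1 ^ 2 * z.2 + ε * (1 + z.1 + z.1 ^ 2)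
noncomputable def pd (z : ℂ × ℂ) : ℂ := 1 + ε * (z.2 * (1 + z.1 + z.1 ^ 2))

lemma pd_ne {z : ℂ × ℂ} (h1 : ‖z.1‖ ≤ 1) (h2 : ‖z.2‖ ≤ 1) : pd z ≠ 0 := by
  intro h
  have h3 := congrArg norm (eq_neg_of_add_eq_zero_left h)
  rw [norm_neg, norm_mul, norm_mul, norm_ε, norm_one] at h3
  have h4 : ‖1 + z.1 + z.1 ^ 2‖ ≤ 3 := by
    refine norm_add₃_le.trans ?_
    rw [norm_one, norm_pow]; nlinarith [norm_nonneg z.1]
  nlinarith [mul_le_mul h2 h4 (norm_nonneg _) zero_le_one]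

lemma k_P {s t : ℂ} (hs : ‖s‖ < 1) (ht : ‖t‖ < 1) (f : H) :
    ⟪k s t, P X Y f⟫_ℂ = pd (s, t) * ⟪k s t, f⟫_ℂ := by
  simp only [P_ap, q_ap, inner_add_right, inner_smul_right, k_X hs ht, k_Y hs ht, pd]; ring
lemma k_Pt {s t : ℂ} (hs : ‖s‖ < 1) (ht : ‖t‖ < 1) (f : H) :
    ⟪k s t, Pt X Y f⟫_ℂ = pn (s, t) * ⟪k s t, f⟫_ℂ := by
  simp only [Pt_ap, q_ap, inner_add_right, inner_smul_right, k_X hs ht, k_Y hs ht, pn]; ring

lemma mul_iff (f : H) : (∃ h : H, ∀ z : ℂ × ℂ, ‖z.1‖ < 1 → ‖z.2‖ < 1 →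
    ev f z = pn z / pd z * ev h z) ↔ ∃ u, f = Pt X Y u := by
  have key : ∀ u (s t : ℂ), ‖s‖ < 1 → ‖t‖ < 1 →
      ⟪k s t, Pt X Y u⟫_ℂ = pn (s, t) / pd (s, t) * ⟪k s t, P X Y u⟫_ℂ := fun u s t hs ht => by
    have := pd_ne (z := (s, t)) hs.le ht.le
    rw [k_P hs ht, k_Pt hs ht]; field_simp
  constructor
  · rintro ⟨h, hh⟩
    obtain ⟨u, rfl⟩ := dc.Pbij.2 h
    refine ⟨u, sub_eq_zero.1 (inj fun s t hs ht => ?_)⟩
    rw [inner_sub_right, key u s t hs ht, ← ev_k hs ht, ← ev_k hs ht, hh (s, t) hs ht, sub_self]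
  · rintro ⟨u, rfl⟩
    exact ⟨P X Y u, fun ⟨s, t⟩ hs ht => by rw [ev_k hs ht, ev_k hs ht, key u s t hs ht]⟩

lemma uni {s t : ℂ} (hs : ‖s‖ = 1) (ht : ‖t‖ = 1) : ‖pn (s, t) / pd (s, t)‖ = 1 := by
  have h0 := pd_ne (z := (s, t)) hs.le ht.le
  have e1 : s * starRingEnd ℂ s = 1 := by rw [mul_conj, normSq_eq_norm_sq, hs]; simp
  have e2 : t * starRingEnd ℂ t = 1 := by rw [mul_conj, normSq_eq_norm_sq, ht]; simp
  have : pn (s, t) = s ^ 2 * t * starRingEnd ℂ (pd (s, t)) := by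
    simp only [pn, pd, map_add, map_mul, map_pow, map_one, conj_ε]
    linear_combination (-ε * s ^ 2 * (1 + starRingEnd ℂ s + starRingEnd ℂ s ^ 2)) * e2 -
      ε * (s + s * starRingEnd ℂ s + 1) * e1
  rw [norm_div, this, norm_mul, norm_mul, norm_pow, hs, ht, RCLike.norm_conj]
  simp [h0]

end Pool.Agent.H.MP_dfd7ce_an
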